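import Mathlib
import Pool.Agent.TH170.GS.Defs

/-!
# Abelian varieties over finite fields with prescribed slopes in CM fields: definitions
-/

set_option autoImplicit false

namespace Run7.h370.TY

open Pool.Agent.W495.TA Pool.Agent.TH170

/-- Each factor of the abelian variety `Y` over the field with `p ^ a` elements, `a = Y.a`, is
supersingular, or some power of its Frobenius endomorphism, the power with exponent `s`, say, is a
number `x` in one of the fields `E k` (embedded in the CM field of the factor) whose slope deviation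
`2 ord_p - s a` is `s * b k * u k i` for some `i : I k`, where the real number `b k ≠ 0` depends only
on `Y` and `k`. -/
def OfSlopes {p : ℕ} [Fact p.Prime] {ν : PadicAlgCl p ≃+* ℂ} {κ : Type} {E : κ → Type}
    [∀ k, Field (E k)] {I : κ → Type} (u : ∀ k, I k → (E k →+* ℂ) → ℤ) (Y : RedAV p ν) : Prop :=
  ∃ b : κ → ℝ, (∀ k, b k ≠ 0) ∧ ∀ l : Y.X.I, GS.IsSupersingular p Y.a (Y.π l) ∨
    ∃ (k : κ) (i : I k) (θ : E k →+* (Y.X.factor l).E) (x : E k) (s : ℕ), 0 < s ∧
      θ x = Y.π l ^ s ∧ ∀ φ : E k →+* ℂ,
        2 * (- Real.logb p ‖ν.symm (φ x)‖) - s * Y.a = s * (b k * u k i φ)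

end Run7.h370.TY
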