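import Mathlib
import Pool.Agent.Run7.h370.MR.Defs

/-!
# Nondegenerate functions on the complex embeddings of a CM field: definitions
-/

set_option autoImplicit false

namespace Run7.h370.TY

open NumberField Module Run7.h370.MR

/-- The integral functions `u i` on the complex embeddings of the CM field `E` are nondegenerate
modulo `r`: there is a group `H` of automorphisms of `ℂ`, each of which acts on the embeddings `φ` of
`E` with an order that is a power of `r`, such that the only system of functions `b i` with values
modulo `r` with the following properties is `b = 0`: `b i` is odd and invariant under `H`, and for all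
automorphisms `g` of `ℂ` the sum of the numbers `b i φ * u i (g φ)`, over `i` and over representatives
`φ` of the pairs of conjugate embeddings, is zero modulo `r`. (The sum does not depend on the choice
`S` of the representatives, for odd `u`.) -/
def NondegenerateModulo (r : ℕ) {E : Type} [Field E] [NumberField E] [IsCMField E]
    {I : Type} [Fintype I] (u : I → (E →+* ℂ) → ℤ) : Prop :=
  ∃ H : Subgroup (ℂ ≃+* ℂ), (∀ h ∈ H, ∃ n : ℕ, ∀ φ : E →+* ℂ, move (h ^ r ^ n) φ = φ) ∧
    ∀ b : I → (E →+* ℂ) → ZMod r, (∀ i φ, b i (conj φ) = - b i φ) →
      (∀ h ∈ H, ∀ i φ, b i (move h φ) = b i φ) →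
      (∀ (g : ℂ ≃+* ℂ) (S : Finset (E →+* ℂ)),
        (∀ φ, φ ∈ S ↔ conj φ ∉ S) → ∑ i, ∑ φ ∈ S, b i φ * (u i (move g φ) : ZMod r) = 0) → b = 0

/-- The CM field `E` is an extension of 2-power degree of a field `R` with Galois closure of odd
degree, and there is a number `ε` in `E` with complex conjugate `- ε` such that no product of the
images of the norm of `ε` under different complex embeddings `σ ∈ S` of `R` is the square of an
algebraic number of odd degree. (If `E` is quadratic over `R` this is assumed for an even number of
embeddings only. If `R` is the field of rational numbers the condition is that the degree of `E` is a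
power of `2` and that it is `2`, or the norm of `ε` is not the square of a rational number.) -/
structure NonsquareNorms (R E : Type) [Field R] [NumberField R] [Field E] [NumberField E]
    [IsCMField E] [Algebra R E] : Prop where
  closure : Odd (finrank ℚ (IntermediateField.normalClosure ℚ R ℂ))
  degree : ∃ m : ℕ, finrank R E = 2 ^ m
  norms : ∃ ε : E, IsCMField.complexConj E ε = - ε ∧ ∀ S : Finset (R →+* ℂ), S.Nonempty →
    Even (finrank R E / 2 * S.card) → ∀ y : ℂ, y ^ 2 = ∏ σ ∈ S, σ (Algebra.norm R ε) →
      Even (minpoly ℚ y).natDegree

/-- The number of the images of a set of complex embeddings of a field under the automorphisms of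
`ℂ`. -/
noncomputable def translates {E : Type} [Field E] (B : Finset (E →+* ℂ)) : ℕ :=
  {C : Set (E →+* ℂ) | ∃ g : ℂ ≃+* ℂ, C = (fun φ => move g φ) '' (B : Set (E →+* ℂ))}.ncard

/-- There is a number `ε` in the CM field `E` with complex conjugate `- ε` such that for all nonempty
sets `B` of complex embeddings of `E` which consist of an even number of pairs of conjugate
embeddings, and for which the number of the translates is odd, the product of the numbers `φ ε`,
`φ ∈ B`, is not the square of an algebraic number of odd degree. -/
def NonsquareProducts (E : Type) [Field E] [NumberField E] [IsCMField E] : Prop :=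
  ∃ ε : E, IsCMField.complexConj E ε = - ε ∧ ∀ B : Finset (E →+* ℂ), B.Nonempty →
    (∀ φ ∈ B, conj φ ∈ B) → 4 ∣ B.card → Odd (translates B) → ∀ y : ℂ,
      y ^ 2 = ∏ φ ∈ B, φ ε → Even (minpoly ℚ y).natDegree

/-- A system of integral functions `u i` on the complex embeddings of the CM field `E` is
nondegenerate modulo some prime number, or there is only one function, all of its values are odd, and
the condition on the products is satisfied. -/
def IsNondegenerate {E : Type} [Field E] [NumberField E] [IsCMField E] {I : Type} [Fintype I]
    (u : I → (E →+* ℂ) → ℤ) : Prop :=
  (∃ r : ℕ, r.Prime ∧ NondegenerateModulo r u) ∨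
    (Subsingleton I ∧ (∀ i φ, Odd (u i φ)) ∧ NonsquareProducts E)

end Run7.h370.TY
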