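import Mathlib

/-!
# Invariant functions modulo a prime number under a group of prime power order
-/

set_option autoImplicit false
set_option linter.unusedSectionVars false

namespace Run7.h370.TY

open MulAction

variable {X : Type*} [Fintype X] {G : Type*} [Group G] [MulAction G X]

/-- A nonzero group of functions modulo `r`, stable under a group which acts through a group of
`r`-power order, contains a nonzero invariant function. -/
theorem exists_fixed (r : ℕ) [hr : Fact r.Prime] (P : Subgroup G)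
    (hP : ∀ h ∈ P, ∃ n : ℕ, ∀ x : X, (h ^ (r ^ n)) • x = x) (W : AddSubgroup (X → ZMod r))
    (hW : ∀ h ∈ P, ∀ b ∈ W, (fun x => b (h • x)) ∈ W) (w : X → ZMod r) (hw : w ∈ W)
    (hw0 : w ≠ 0) : ∃ b ∈ W, (∃ x, b x ≠ 0) ∧ ∀ h ∈ P, ∀ x, b (h • x) = b x := by
  classical
  let w0 : W := ⟨w, hw⟩
  have hw0ne : w0 ≠ 0 := fun h => hw0 (congrArg Subtype.val h)
  have hcard : r ∣ Nat.card W := by
    have h1 : addOrderOf w0 = r := by
      refine addOrderOf_eq_prime ?_ hw0ne
      apply Subtype.ext
      funext x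
      change (r • w : X → ZMod r) x = 0
      rw [Pi.smul_apply, nsmul_eq_mul, ZMod.natCast_self, zero_mul]
    have h2 := addOrderOf_dvd_natCard w0
    rwa [h1] at h2
  let Q : Subgroup (Equiv.Perm X) := P.map (MulAction.toPermHom G X)
  have hQ : IsPGroup r Q := by
    rintro ⟨q, hq⟩
    obtain ⟨h, hh, rfl⟩ := Subgroup.mem_map.1 hq
    obtain ⟨n, hn⟩ := hP h hh
    refine ⟨n, ?_⟩
    apply Subtype.ext
    change (MulAction.toPermHom G X h) ^ (r ^ n) = 1
    rw [← map_pow]
    ext x
    exact hn x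
  have hQW : ∀ q : Q, ∀ b : X → ZMod r, b ∈ W →
      (fun x => b ((q : Equiv.Perm X)⁻¹ x)) ∈ W := by
    rintro ⟨q, hq⟩ b hb
    obtain ⟨h, hh, rfl⟩ := Subgroup.mem_map.1 hq
    have h1 := hW h⁻¹ (P.inv_mem hh) b hb
    have h2 : (fun x => b (((⟨MulAction.toPermHom G X h, hq⟩ : Q) : Equiv.Perm X)⁻¹ x)) =
        fun x => b (h⁻¹ • x) := by
      funext x
      congr 1
    rw [h2]
    exact h1
  let act : MulAction Q W :=
    { smul := fun q b => ⟨fun x => b.1 ((q : Equiv.Perm X)⁻¹ x), hQW q b.1 b.2⟩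
      one_smul := fun b => by
        apply Subtype.ext
        funext x
        rfl
      mul_smul := fun q q' b => by
        apply Subtype.ext
        funext x
        change b.1 (((q * q' : Q) : Equiv.Perm X)⁻¹ x) = b.1 ((q' : Equiv.Perm X)⁻¹ ((q : Equiv.Perm X)⁻¹ x))
        rw [Subgroup.coe_mul, mul_inv_rev, Equiv.Perm.mul_apply] }
  have h0 : (0 : W) ∈ fixedPoints Q W := by
    intro q
    apply Subtype.ext
    funext x
    rfl
  obtain ⟨b, hb, hb0⟩ := hQ.exists_fixed_point_of_prime_dvd_card_of_fixed_point W hcard h0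
  refine ⟨b.1, b.2, ?_, fun h hh x => ?_⟩
  · by_contra hcon
    push Not at hcon
    apply hb0
    apply Subtype.ext
    funext x
    exact (hcon x).symm
  · have h1 := hb ⟨MulAction.toPermHom G X h, Subgroup.mem_map_of_mem _ hh⟩
    have h2 := congrFun (congrArg Subtype.val h1) (h • x)
    change b.1 ((MulAction.toPermHom G X h)⁻¹ (h • x)) = b.1 (h • x) at h2
    have h3 : (MulAction.toPermHom G X h)⁻¹ (h • x) = x := by
      rw [← map_inv]
      exact inv_smul_smul h x
    rw [h3] at h2
    exact h2.symm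

/-- An odd integral function with given relations is divisible by an odd function which is not zero
modulo `r` and has the same relations. -/
theorem exists_primitive (inv : X → X) (c : X → ℤ) (hc : ∀ x, c (inv x) = -c x)
    (hc0 : ∃ x, c x ≠ 0) (r : ℕ) [hr : Fact r.Prime] : ∃ e : X → ℤ, (∀ x, e (inv x) = - e x) ∧
      (∃ x, ¬ (r : ℤ) ∣ e x) ∧ ∀ u : X → ℤ, ∑ x, c x * u x = 0 → ∑ x, e x * u x = 0 := by
  classical
  obtain ⟨x₀, hx₀⟩ := hc0
  obtain ⟨e, he, he1⟩ := Finset.extract_gcd (s := (Finset.univ : Finset X)) c ⟨x₀, Finset.mem_univ _⟩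
  obtain ⟨D, hD⟩ : ∃ D, D = Finset.univ.gcd c := ⟨_, rfl⟩
  rw [← hD] at he
  have hce : ∀ x, c x = D * e x := fun x => he x (Finset.mem_univ x)
  have hD0 : D ≠ 0 := by
    rintro rfl
    apply hx₀
    rw [hce, zero_mul]
  refine ⟨e, ?_, ?_, ?_⟩
  · intro x
    have h1 := hc x
    rw [hce, hce, ← mul_neg] at h1
    exact mul_left_cancel₀ hD0 h1
  · by_contra hcon
    push Not at hcon
    have h1 : (r : ℤ) ∣ Finset.univ.gcd e := Finset.dvd_gcd fun x _ => hcon x
    rw [he1] at h1
    have h2 := Int.natAbs_dvd_natAbs.2 h1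
    simp only [Int.natAbs_natCast, Int.natAbs_one, Nat.dvd_one] at h2
    exact hr.out.one_lt.ne' h2
  · intro u h1
    have h2 : ∑ x, c x * u x = D * ∑ x, e x * u x := by
      rw [Finset.mul_sum]
      exact Finset.sum_congr rfl fun x _ => by rw [hce, mul_assoc]
    rw [h2] at h1
    exact (mul_eq_zero.1 h1).resolve_left hD0

/-- The sum over one half of a set with an involution is the same as over the other half. -/
theorem half_eq_zero {inv : X → X} (hinv : ∀ x, inv (inv x) = x) {F : X → ℤ}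
    (hF : ∀ x, F (inv x) = F x) (h0 : ∑ x, F x = 0) (S : Finset X)
    (hS : ∀ x, x ∈ S ↔ inv x ∉ S) : ∑ x ∈ S, F x = 0 := by
  classical
  have h3 : ∑ x ∈ Sᶜ, F x = ∑ x ∈ S, F x := by
    refine Finset.sum_nbij' inv inv (fun x hx => ?_) (fun x hx => ?_)
      (fun x _ => hinv x) (fun x _ => hinv x) (fun x _ => (hF x).symm)
    · rw [Finset.mem_compl] at hx
      rw [hS, hinv]
      exact hx
    · rw [Finset.mem_compl]
      exact (hS x).1 hx
  rw [← Finset.sum_add_sum_compl S, h3] at h0
  linarith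

end Run7.h370.TY
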