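import Mathlib
import Pool.Agent.Run7.h370.TY.Fixed

/-!
# Relations between the translates of a function with odd values, modulo two
-/

set_option autoImplicit false
set_option linter.unusedSectionVars false

namespace Run7.h370.TY

variable {X : Type*} [Fintype X] {G : Type*} [Group G] [MulAction G X]

/-- The sign which tells whether `u (g x)` and `u x` are different modulo `4`. -/
def flip (u : X → ℤ) (g : G) (x : X) : ZMod 2 := ((u (g • x) - u x) / 2 : ℤ)

theorem two_mul_half {m n : ℤ} (hm : Odd m) (hn : Odd n) : 2 * ((m - n) / 2) = m - n :=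
  Int.mul_ediv_cancel' (hm.sub_odd hn).two_dvd

theorem flip_mul {u : X → ℤ} (hu : ∀ x, Odd (u x)) (g h : G) (x : X) :
    flip u (g * h) x = flip u g (h • x) + flip u h x := by
  unfold flip
  rw [← Int.cast_add]
  congr 1
  have h1 := two_mul_half (hu ((g * h) • x)) (hu x)
  have h2 := two_mul_half (hu (g • h • x)) (hu (h • x))
  have h3 := two_mul_half (hu (h • x)) (hu x)
  rw [mul_smul] at h1 ⊢
  omega

theorem flip_inv {u : X → ℤ} {inv : X → X} (hu : ∀ x, Odd (u x)) (hu' : ∀ x, u (inv x) = - u x)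
    (hG : ∀ (g : G) x, g • inv x = inv (g • x)) (g : G) (x : X) :
    flip u g (inv x) = flip u g x := by
  unfold flip
  rw [hG, hu', hu']
  have h1 := two_mul_half (hu (g • x)) (hu x)
  have h2 : (-u (g • x) - -u x) / 2 = -((u (g • x) - u x) / 2) := by omega
  rw [h2, Int.cast_neg]
  exact ZMod.neg_eq_self_mod_two _

/-- The even functions modulo `2` with all relations. -/
def WS (G : Type*) [Group G] [MulAction G X] (inv : X → X) (u : X → ℤ) :
    AddSubgroup (X → ZMod 2) where
  carrier := {b | (∀ x, b (inv x) = b x) ∧ ∀ (S : Finset X), (∀ x, x ∈ S ↔ inv x ∉ S) →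
    ∑ x ∈ S, b x = 0 ∧ ∀ g : G, ∑ x ∈ S, b x * flip u g x = 0}
  zero_mem' := ⟨fun x => rfl, fun S _ => ⟨by simp, fun g => by simp⟩⟩
  add_mem' := by
    rintro a b ⟨h1, h2⟩ ⟨h3, h4⟩
    refine ⟨fun x => by simp only [Pi.add_apply, h1, h3], fun S hS => ⟨?_, fun g => ?_⟩⟩
    · simp only [Pi.add_apply, Finset.sum_add_distrib]
      rw [(h2 S hS).1, (h4 S hS).1, add_zero]
    · simp only [Pi.add_apply, add_mul, Finset.sum_add_distrib]
      rw [(h2 S hS).2 g, (h4 S hS).2 g, add_zero]
  neg_mem' := by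
    rintro a ⟨h1, h2⟩
    refine ⟨fun x => by simp only [Pi.neg_apply, h1], fun S hS => ⟨?_, fun g => ?_⟩⟩
    · simp only [Pi.neg_apply, Finset.sum_neg_distrib]
      rw [(h2 S hS).1, neg_zero]
    · simp only [Pi.neg_apply, neg_mul, Finset.sum_neg_distrib]
      rw [(h2 S hS).2 g, neg_zero]

theorem WS_smul {inv : X → X} (hG : ∀ (g : G) x, g • inv x = inv (g • x)) {u : X → ℤ}
    (hu : ∀ x, Odd (u x)) {b : X → ZMod 2} (hb : b ∈ WS G inv u) (h : G) :
    (fun x => b (h • x)) ∈ WS G inv u := by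
  classical
  obtain ⟨h1, h2⟩ := hb
  refine ⟨fun x => ?_, fun S hS => ?_⟩
  · change b (h • inv x) = b (h • x)
    rw [hG, h1]
  · have hS' : ∀ x, x ∈ S.map (MulAction.toPerm h).toEmbedding ↔
        inv x ∉ S.map (MulAction.toPerm h).toEmbedding := fun x => by
      have e1 : ∀ y : X, y ∈ S.map (MulAction.toPerm h).toEmbedding ↔ h⁻¹ • y ∈ S := by
        intro y
        rw [Finset.mem_map_equiv]
        rfl
      rw [e1, e1, hS, hG]
    obtain ⟨h3, h4⟩ := h2 _ hS'
    refine ⟨?_, fun g => ?_⟩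
    · rw [Finset.sum_map] at h3
      exact h3
    · have h5 := h4 (g * h⁻¹)
      have h6 := h4 h⁻¹
      rw [Finset.sum_map] at h5 h6
      have h7 : ∀ x ∈ S, b (h • x) * flip u g x =
          b ((MulAction.toPerm h).toEmbedding x) *
            flip u (g * h⁻¹) ((MulAction.toPerm h).toEmbedding x) -
          b ((MulAction.toPerm h).toEmbedding x) *
            flip u h⁻¹ ((MulAction.toPerm h).toEmbedding x) := by
        intro x _
        change b (h • x) * flip u g x = b (h • x) * flip u (g * h⁻¹) (h • x) -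
          b (h • x) * flip u h⁻¹ (h • x)
        rw [flip_mul hu g h⁻¹ (h • x), inv_smul_smul]
        ring
      rw [Finset.sum_congr rfl h7, Finset.sum_sub_distrib, h5, h6, sub_zero]

/-- An integral odd relation between the translates of an odd function with odd values gives an
even relation modulo two for the changes of the sign modulo four, which is invariant under a group
which acts through a group of 2-power order. -/
theorem core_sign (inv : X → X) (hinv : ∀ x, inv (inv x) = x)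
    (hhalf : ∃ S : Finset X, ∀ x, x ∈ S ↔ inv x ∉ S)
    (hG : ∀ (g : G) x, g • inv x = inv (g • x))
    (P : Subgroup G) (hP : ∀ h ∈ P, ∃ n : ℕ, ∀ x : X, (h ^ (2 ^ n)) • x = x)
    (u c : X → ℤ) (hu : ∀ x, Odd (u x)) (hu' : ∀ x, u (inv x) = -u x)
    (hc : ∀ x, c (inv x) = -c x) (hrel : ∀ g : G, ∑ x, c x * u (g • x) = 0)
    (hc0 : ∃ x, c x ≠ 0) :
    ∃ b : X → ZMod 2, (∃ x, b x ≠ 0) ∧ (∀ x, b (inv x) = b x) ∧
      (∀ h ∈ P, ∀ x, b (h • x) = b x) ∧ ∀ (S : Finset X), (∀ x, x ∈ S ↔ inv x ∉ S) →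
        ∑ x ∈ S, b x = 0 ∧ ∀ g : G, ∑ x ∈ S, b x * flip u g x = 0 := by
  classical
  have _ : Fact (Nat.Prime 2) := ⟨Nat.prime_two⟩
  obtain ⟨e, heodd, ⟨x₀, hx₀⟩, hErel⟩ := exists_primitive inv c hc hc0 2
  have hneg : ∀ n : ℤ, ((-n : ℤ) : ZMod 2) = (n : ZMod 2) := by
    intro n
    rw [Int.cast_neg]
    exact ZMod.neg_eq_self_mod_two _
  have hhalf' : ∀ (g : G) (S : Finset X), (∀ x, x ∈ S ↔ inv x ∉ S) →
      ∑ x ∈ S, e x * u (g • x) = 0 := by
    intro g S hS
    refine half_eq_zero hinv (F := fun x => e x * u (g • x)) (fun x => ?_)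
      (hErel (fun x => u (g • x)) (hrel g)) S hS
    change e (inv x) * u (g • inv x) = e x * u (g • x)
    rw [heodd, hG, hu']
    ring
  have hw : (fun x => (e x : ZMod 2)) ∈ WS G inv u := by
    refine ⟨fun x => ?_, fun S hS => ⟨?_, fun g => ?_⟩⟩
    · change ((e (inv x) : ℤ) : ZMod 2) = ((e x : ℤ) : ZMod 2)
      rw [heodd, hneg]
    · have h1 := congrArg (Int.cast : ℤ → ZMod 2) (hhalf' 1 S hS)
      push_cast at h1
      rw [← h1]
      refine Finset.sum_congr rfl fun x _ => ?_
      rw [one_smul, (ZMod.intCast_eq_one_iff_odd).2 (hu x), mul_one]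
    · have h1 := hhalf' g S hS
      have h2 := hhalf' 1 S hS
      have h3 : 2 * ∑ x ∈ S, e x * ((u (g • x) - u x) / 2) = 0 := by
        rw [Finset.mul_sum]
        have h4 : ∀ x ∈ S, 2 * (e x * ((u (g • x) - u x) / 2)) =
            e x * u (g • x) - e x * u ((1 : G) • x) := by
          intro x _
          rw [one_smul, mul_left_comm, two_mul_half (hu _) (hu _)]
          ring
        rw [Finset.sum_congr rfl h4, Finset.sum_sub_distrib, h1, h2, sub_zero]
      have h5 : ∑ x ∈ S, e x * ((u (g • x) - u x) / 2) = 0 := by omega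
      have h6 := congrArg (Int.cast : ℤ → ZMod 2) h5
      rw [Int.cast_sum, Int.cast_zero] at h6
      rw [← h6]
      refine Finset.sum_congr rfl fun x _ => ?_
      rw [Int.cast_mul]
      rfl
  have hw0 : (fun x => (e x : ZMod 2)) ≠ 0 := by
    intro h
    apply hx₀
    exact (ZMod.intCast_zmod_eq_zero_iff_dvd (e x₀) 2).1 (congrFun h x₀)
  obtain ⟨b, hb, hb0, hbP⟩ := exists_fixed 2 P hP (WS G inv u)
    (fun h _ b hb => WS_smul hG hu hb h) _ hw hw0
  exact ⟨b, hb0, hb.1, hbP, fun S hS => hb.2 S hS⟩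

end Run7.h370.TY
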