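import Mathlib
import Pool.Agent.Run7.h370.TY.Defs
import Pool.Agent.Run7.h370.TY.Sign
import Pool.Agent.Run7.h370.MR.Core
import Pool.Agent.Run7.h370.MR.Two

/-!
# Nondegenerate functions on the complex embeddings of a CM field have no odd relations
-/

set_option autoImplicit false
set_option linter.unusedSectionVars false

namespace Run7.h370.TY

open NumberField Module Run7.h370.MR Pool.Agent.H204R3.CM Pool.Agent.H977R3.CM Pool.Agent.H925R2

/-- The automorphisms act on the embeddings. -/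
def act (F A : Type) [Field F] [Field A] : MulAction (A ≃+* A) (F →+* A) where
  smul g τ := move g τ
  one_smul τ := by ext x; rfl
  mul_smul g h τ := by ext x; rfl

section

variable {E : Type} [Field E] [NumberField E] [IsCMField E]

theorem conj_conj_emb {A : Type} [Field A] (φ : E →+* A) : conj (conj φ) = φ := cbar_cbar φ

theorem conj_eq (φ : E →+* ℂ) : ComplexEmbedding.conjugate φ = conj φ := by
  ext x
  rw [ComplexEmbedding.conjugate_coe_eq, ← IsCMField.complexEmbedding_complexConj]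
  rfl

theorem exists_half : ∃ S : Finset (E →+* ℂ), ∀ φ, φ ∈ S ↔ conj φ ∉ S :=
  exists_isHalf (inv := conj (F := E) (A := ℂ)) (fun τ => cbar_cbar τ) (fun τ => cbar_ne τ)

/-- Functions which are nondegenerate modulo `r` have no odd relations. -/
theorem noRel_of_mod {I : Type} [Fintype I] {u : I → (E →+* ℂ) → ℤ} {r : ℕ} (hr : r.Prime)
    (h : NondegenerateModulo r u) (hu : ∀ i φ, u i (conj φ) = - u i φ)
    (c : I → (E →+* ℂ) → ℤ) (hc : ∀ i φ, c i (conj φ) = - c i φ)
    (hrel : ∀ σ : ℂ ≃+* ℂ, ∑ i, ∑ φ, c i φ * u i (move σ φ) = 0) : ∀ i φ, c i φ = 0 := by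
  classical
  have _ : Fact r.Prime := ⟨hr⟩
  obtain ⟨H, hH, hb⟩ := h
  by_contra hcon
  push Not at hcon
  obtain ⟨i₀, φ₀, h₀⟩ := hcon
  let X := Σ _ : I, (E →+* ℂ)
  let actX : MulAction (ℂ ≃+* ℂ) X :=
    { smul := fun g x => ⟨x.1, move g x.2⟩
      one_smul := fun x => rfl
      mul_smul := fun g h x => rfl }
  let inv : X → X := fun x => ⟨x.1, conj x.2⟩
  obtain ⟨b, ⟨y₀, hy₀⟩, hb1, hb2, hb3⟩ := core_mod (G := ℂ ≃+* ℂ) (X := X) inv
    (fun x => congrArg (Sigma.mk (β := fun _ : I => (E →+* ℂ)) x.1) (conj_conj_emb x.2))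
    (fun g x => rfl) r H (fun h hh => by
      obtain ⟨n, hn⟩ := hH h hh
      exact ⟨n, fun x => congrArg (Sigma.mk (β := fun _ : I => (E →+* ℂ)) x.1) (hn x.2)⟩)
    (fun x => u x.1 x.2) (fun x => c x.1 x.2) (fun x => hu x.1 x.2) (fun x => hc x.1 x.2)
    (fun g => by
      rw [← hrel g, Fintype.sum_sigma]
      rfl) ⟨⟨i₀, φ₀⟩, h₀⟩
  apply hy₀
  have h1 := hb (fun i φ => b ⟨i, φ⟩) (fun i φ => hb1 ⟨i, φ⟩) (fun h hh i φ => hb2 h hh ⟨i, φ⟩)
    (fun g S hS => by
      have h2 := hb3 g (Finset.univ.sigma fun _ => S) (by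
        rintro ⟨i, φ⟩
        refine Finset.mem_sigma.trans ?_
        simp only [Finset.mem_univ, true_and]
        rw [hS]
        refine not_congr ?_
        exact (Finset.mem_sigma.trans (by simp only [Finset.mem_univ, true_and]; rfl)).symm)
      rw [Finset.sum_sigma] at h2
      exact h2)
  exact congrFun (congrFun h1 y₀.1) y₀.2

end

end Run7.h370.TY
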