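import Mathlib
import Pool.Agent.Run7.h370.TY.Mod

/-!
# Functions with odd values on the complex embeddings of a CM field with nonsquare norms
-/

set_option autoImplicit false
set_option linter.unusedSectionVars false

namespace Run7.h370.TY

open NumberField Module Run7.h370.MR Pool.Agent.H204R3.CM Pool.Agent.H977R3.CM Pool.Agent.H925R2

/-- The sign modulo `4` of an odd number. -/
noncomputable def sg (n : ℤ) : ℂ := if n % 4 = 1 then 1 else -1

theorem sg_sq (n : ℤ) : sg n * sg n = 1 := by
  unfold sg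
  split_ifs <;> norm_num

theorem sg_neg {n : ℤ} (hn : Odd n) : sg (-n) = - sg n := by
  unfold sg
  obtain ⟨k, rfl⟩ := hn
  by_cases h : (2 * k + 1) % 4 = 1
  · rw [if_pos h, if_neg (by omega)]
  · rw [if_neg h, if_pos (by omega)]
    norm_num

theorem sg_flip {m n : ℤ} (hm : Odd m) (hn : Odd n) :
    sg m * sg n = if (((m - n) / 2 : ℤ) : ZMod 2) = 0 then 1 else -1 := by
  unfold sg
  obtain ⟨k, rfl⟩ := hm
  obtain ⟨l, rfl⟩ := hn
  have h0 : (2 * k + 1 - (2 * l + 1)) / 2 = k - l := by omega
  rw [h0]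
  have h1 : (((k - l : ℤ)) : ZMod 2) = 0 ↔ (k - l) % 2 = 0 := by
    rw [ZMod.intCast_eq_zero_iff_even, Int.even_iff]
  by_cases hk : (2 * k + 1) % 4 = 1 <;> by_cases hl : (2 * l + 1) % 4 = 1
  · rw [if_pos hk, if_pos hl, if_pos (h1.2 (by omega)), mul_one]
  · rw [if_pos hk, if_neg hl, if_neg (fun h => by have := h1.1 h; omega), one_mul]
  · rw [if_neg hk, if_pos hl, if_neg (fun h => by have := h1.1 h; omega), mul_one]
  · rw [if_neg hk, if_neg hl, if_pos (h1.2 (by omega))]
    norm_num

theorem prod_sign {X : Type*} [DecidableEq X] (f : X → ZMod 2) (T : Finset X) :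
    ∏ x ∈ T, (if f x = 0 then (1 : ℂ) else -1) = if ∑ x ∈ T, f x = 0 then 1 else -1 := by
  induction T using Finset.induction_on with
  | empty => simp
  | insert a s ha ih =>
    rw [Finset.prod_insert ha, Finset.sum_insert ha, ih]
    have h2 : ∀ z : ZMod 2, z = 0 ∨ z = 1 := by decide
    rcases h2 (f a) with h | h <;> rcases h2 (∑ x ∈ s, f x) with h' | h' <;> rw [h, h']
    · simp
    · simp
    · simp
    · have h3 : (1 : ZMod 2) + 1 = 0 := by decide
      rw [h3]
      simp

section

variable {R E : Type} [Field R] [NumberField R] [Field E] [NumberField E] [IsCMField E]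
  [Algebra R E]

/-- The product of the conjugates over an embedding of the subfield is the norm. -/
theorem prod_fibre (ε : E) (σ : R →+* ℂ) [DecidableEq (R →+* ℂ)] :
    ∏ φ : E →+* ℂ with φ.comp (algebraMap R E) = σ, φ ε = σ (Algebra.norm R ε) := by
  classical
  let _ : Algebra R ℂ := σ.toAlgebra
  have _ : IsScalarTower ℚ R E := inferInstance
  have _ : FiniteDimensional R E := FiniteDimensional.right ℚ R E
  have h1 := Algebra.norm_eq_prod_embeddings R ℂ (L := E) ε
  change σ (Algebra.norm R ε) = _ at h1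
  rw [h1]
  symm
  refine Finset.prod_bij (fun (f : E →ₐ[R] ℂ) _ => (f : E →+* ℂ)) (fun f _ => ?_)
    (fun f _ g _ h => ?_) (fun φ hφ => ?_) (fun f _ => rfl)
  · rw [Finset.mem_filter]
    refine ⟨Finset.mem_univ _, ?_⟩
    ext x
    exact f.commutes x
  · ext x
    exact RingHom.congr_fun h x
  · rw [Finset.mem_filter] at hφ
    refine ⟨{ φ with commutes' := fun x => RingHom.congr_fun hφ.2 x }, Finset.mem_univ _, ?_⟩
    ext x
    rfl

theorem card_fibre (σ : R →+* ℂ) [DecidableEq (R →+* ℂ)] :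
    (Finset.univ.filter (fun φ : E →+* ℂ => φ.comp (algebraMap R E) = σ)).card =
      finrank R E := by
  classical
  let _ : Algebra R ℂ := σ.toAlgebra
  have _ : IsScalarTower ℚ R E := inferInstance
  have _ : FiniteDimensional R E := FiniteDimensional.right ℚ R E
  rw [← AlgHom.card R E ℂ, ← Finset.card_univ]
  symm
  refine Finset.card_bij (fun (f : E →ₐ[R] ℂ) _ => (f : E →+* ℂ)) (fun f _ => ?_)
    (fun f _ g _ h => ?_) (fun φ hφ => ?_)
  · rw [Finset.mem_filter]
    refine ⟨Finset.mem_univ _, ?_⟩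
    ext x
    exact f.commutes x
  · ext x
    exact RingHom.congr_fun h x
  · rw [Finset.mem_filter] at hφ
    refine ⟨{ φ with commutes' := fun x => RingHom.congr_fun hφ.2 x }, Finset.mem_univ _, ?_⟩
    ext x
    rfl

/-- A number fixed by a Sylow 2-subgroup has odd degree. -/
theorem odd_degree {L : Type} [Field L] [NumberField L] [IsGalois ℚ L] (j : L →+* ℂ)
    (S : Sylow 2 (L ≃ₐ[ℚ] L)) (y : L) (hy : ∀ s ∈ S, s y = y) :
    Odd (minpoly ℚ (j y)).natDegree := by
  classical
  have _ : Fact (Nat.Prime 2) := ⟨Nat.prime_two⟩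
  let j' : L →ₐ[ℚ] ℂ := j.toRatAlgHom
  have h1 : minpoly ℚ (j y) = minpoly ℚ y := minpoly.algHom_eq j' j.injective y
  rw [h1]
  have hint : IsIntegral ℚ y := Algebra.IsIntegral.isIntegral y
  rw [← IntermediateField.adjoin.finrank hint]
  let F : IntermediateField ℚ L := IntermediateField.adjoin ℚ {y}
  have h2 : (S : Subgroup (L ≃ₐ[ℚ] L)) ≤ F.fixingSubgroup := by
    intro s hs
    rw [IntermediateField.mem_fixingSubgroup_iff]
    intro x hx
    have h3 : F ≤ IntermediateField.fixedField (S : Subgroup (L ≃ₐ[ℚ] L)) := by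
      rw [IntermediateField.adjoin_le_iff]
      rintro z rfl
      rw [SetLike.mem_coe, IntermediateField.mem_fixedField_iff]
      exact hy
    exact (IntermediateField.mem_fixedField_iff _ x).1 (h3 hx) s hs
  have h3 : F.fixingSubgroup.index = finrank ℚ F := by
    have h4 := F.fixingSubgroup.card_mul_index
    have h5 := IsGalois.card_fixingSubgroup_eq_finrank F
    have h6 := IsGalois.card_aut_eq_finrank ℚ L
    have h7 := finrank_mul_finrank ℚ F L
    rw [h5, h6, ← h7] at h4
    have h8 : 0 < finrank F L := finrank_pos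
    rw [mul_comm] at h4
    exact Nat.eq_of_mul_eq_mul_right h8 h4
  have h4 : F.fixingSubgroup.index ∣ (S : Subgroup (L ≃ₐ[ℚ] L)).index :=
    Subgroup.index_dvd_of_le h2
  have h5 : ¬ 2 ∣ (S : Subgroup (L ≃ₐ[ℚ] L)).index := S.not_dvd_index
  change Odd (finrank ℚ F)
  rw [← h3, ← Nat.not_even_iff_odd, even_iff_two_dvd]
  exact fun h => h5 (h.trans h4)

end

end Run7.h370.TY
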