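import Mathlib
import Pool.Agent.Run7.h370.TY.Mod

/-!
# The number of translates of a set of embeddings
-/

set_option autoImplicit false
set_option linter.unusedSectionVars false

namespace Run7.h370.TY

open NumberField Module Run7.h370.MR Pool.Agent.H204R3.CM Pool.Agent.H977R3.CM Pool.Agent.H925R2
  Pool.Agent.W527
open scoped Pointwise

variable {E : Type} [Field E] {L : Type} [Field L] [NumberField L] [IsGalois ℚ L] (j : L →+* ℂ)

/-- The embeddings into `L` which belong to `B`. -/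
def lower (B : Finset (E →+* ℂ)) : Set (E →+* L) := {φ | j.comp φ ∈ B}

theorem translates_eq_index (hj : ∀ ψ : E →+* ℂ, ∃ φ : E →+* L, j.comp φ = ψ)
    (B : Finset (E →+* ℂ)) :
    translates B = (MulAction.stabilizer (L ≃ₐ[ℚ] L) (lower j B)).index := by
  rw [MulAction.index_stabilizer]
  let F : Set (E →+* L) → Set (E →+* ℂ) := fun C => (fun φ => j.comp φ) '' C
  have hinj : Function.Injective F := Set.image_injective.2 fun φ ψ h =>
    RingHom.ext fun x => j.injective (RingHom.congr_fun h x)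
  rw [← Set.ncard_image_of_injective _ hinj]
  unfold translates
  congr 1
  have hB : F (lower j B) = (B : Set (E →+* ℂ)) := by
    ext ψ
    constructor
    · rintro ⟨φ, h1, rfl⟩
      exact h1
    · intro h1
      obtain ⟨φ, rfl⟩ := hj ψ
      exact ⟨φ, h1, rfl⟩
  have hmove : ∀ (σ : ℂ ≃+* ℂ) (g : L ≃ₐ[ℚ] L), Lifts j σ g →
      (fun φ => move σ φ) '' (B : Set (E →+* ℂ)) = F (g • lower j B) := by
    intro σ g hg
    rw [← hB]
    ext ψ
    constructor
    · rintro ⟨_, ⟨φ, h1, rfl⟩, rfl⟩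
      exact ⟨g • φ, Set.smul_mem_smul_set h1, (lifts_comp j hg φ).symm⟩
    · rintro ⟨_, ⟨φ, h1, rfl⟩, rfl⟩
      exact ⟨j.comp φ, ⟨φ, h1, rfl⟩, lifts_comp j hg φ⟩
  ext C
  constructor
  · rintro ⟨σ, rfl⟩
    obtain ⟨g, hg⟩ := exists_lift j σ
    exact ⟨g • lower j B, ⟨g, rfl⟩, (hmove σ g hg).symm⟩
  · rintro ⟨_, ⟨g, rfl⟩, rfl⟩
    obtain ⟨σ, hσ⟩ := exists_lift' j g
    exact ⟨σ, (hmove σ g hσ).symm⟩

/-- A set which is invariant under a Sylow 2-subgroup has an odd number of translates. -/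
theorem odd_translates (hj : ∀ ψ : E →+* ℂ, ∃ φ : E →+* L, j.comp φ = ψ)
    (B : Finset (E →+* ℂ)) (S : Sylow 2 (L ≃ₐ[ℚ] L))
    (hS : ∀ s ∈ S, ∀ φ : E →+* L, j.comp φ ∈ B → j.comp (s • φ) ∈ B) : Odd (translates B) := by
  have _ : Fact (Nat.Prime 2) := ⟨Nat.prime_two⟩
  rw [translates_eq_index j hj]
  have h1 : (S : Subgroup (L ≃ₐ[ℚ] L)) ≤ MulAction.stabilizer (L ≃ₐ[ℚ] L) (lower j B) := by
    intro s hs
    rw [MulAction.mem_stabilizer_iff]
    ext φ
    rw [Set.mem_smul_set_iff_inv_smul_mem]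
    constructor
    · intro h2
      have h3 := hS s hs (s⁻¹ • φ) h2
      rw [smul_inv_smul] at h3
      exact h3
    · exact fun h2 => hS s⁻¹ (inv_mem hs) φ h2
  have h2 := Subgroup.index_dvd_of_le h1
  have h3 : ¬ 2 ∣ (S : Subgroup (L ≃ₐ[ℚ] L)).index := S.not_dvd_index
  rw [← Nat.not_even_iff_odd, even_iff_two_dvd]
  exact fun h => h3 (h.trans h2)

/-- A set with an odd number of translates is invariant under a Sylow 2-subgroup. -/
theorem exists_sylow (hj : ∀ ψ : E →+* ℂ, ∃ φ : E →+* L, j.comp φ = ψ)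
    (B : Finset (E →+* ℂ)) (hB : Odd (translates B)) : ∃ S : Sylow 2 (L ≃ₐ[ℚ] L),
      ∀ s ∈ S, ∀ φ : E →+* L, j.comp φ ∈ B → j.comp (s • φ) ∈ B := by
  have _ : Fact (Nat.Prime 2) := ⟨Nat.prime_two⟩
  rw [translates_eq_index j hj] at hB
  let K : Subgroup (L ≃ₐ[ℚ] L) := MulAction.stabilizer (L ≃ₐ[ℚ] L) (lower j B)
  obtain ⟨Q⟩ : Nonempty (Sylow 2 K) := inferInstance
  let P : Subgroup (L ≃ₐ[ℚ] L) := (Q : Subgroup K).map K.subtype
  have hP : IsPGroup 2 P := Q.isPGroup'.map K.subtype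
  have hidx : ¬ 2 ∣ P.index := by
    have h1 : P.index = (Q : Subgroup K).index * K.index := by
      have h2 := Subgroup.index_map (Q : Subgroup K) K.subtype
      rw [Subgroup.ker_subtype, sup_bot_eq, Subgroup.range_subtype] at h2
      exact h2
    rw [h1, Nat.prime_two.dvd_mul, not_or]
    exact ⟨Q.not_dvd_index, by rw [← even_iff_two_dvd, Nat.not_even_iff_odd]; exact hB⟩
  refine ⟨hP.toSylow hidx, fun s hs φ hφ => ?_⟩
  have hs' : s ∈ P := hs
  obtain ⟨k, _, rfl⟩ := Subgroup.mem_map.1 hs'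
  have h1 : (k : L ≃ₐ[ℚ] L) • lower j B = lower j B := k.2
  have h2 : (k : L ≃ₐ[ℚ] L) • φ ∈ (k : L ≃ₐ[ℚ] L) • lower j B := Set.smul_mem_smul_set hφ
  rw [h1] at h2
  exact h2

end Run7.h370.TY
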