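import Mathlib
import Pool.Agent.Run7.h370.TY.Norm
import Pool.Agent.Run7.h370.TY.Translates

/-!
# Functions with odd values on the complex embeddings of a CM field with nonsquare products have no odd
relations
-/

set_option autoImplicit false
set_option linter.unusedSectionVars false

namespace Run7.h370.TY

open NumberField Module Run7.h370.MR Pool.Agent.H204R3.CM Pool.Agent.H977R3.CM Pool.Agent.H925R2

variable {E : Type} [Field E] [NumberField E] [IsCMField E]

theorem zmod_two : ∀ z : ZMod 2, z = 0 ∨ z = 1 := by decide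

theorem noRel_of_products (h : NonsquareProducts E) {u : (E →+* ℂ) → ℤ} (hodd : ∀ φ, Odd (u φ))
    (hu : ∀ φ, u (conj φ) = - u φ) (c : (E →+* ℂ) → ℤ) (hc : ∀ φ, c (conj φ) = - c φ)
    (hrel : ∀ σ : ℂ ≃+* ℂ, ∑ φ, c φ * u (move σ φ) = 0) : ∀ φ, c φ = 0 := by
  classical
  have _ : Fact (Nat.Prime 2) := ⟨Nat.prime_two⟩
  by_contra hcon
  push Not at hcon
  obtain ⟨φ₀, hφ₀⟩ := hcon
  obtain ⟨ε, hε, hnorm⟩ := h
  obtain ⟨L, _, _, j, hj⟩ := exists_galois (fun _ : Unit => E)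
  have hjE : ∀ ψ : E →+* ℂ, ∃ φ : E →+* L, j.comp φ = ψ := hj ()
  obtain ⟨S⟩ : Nonempty (Sylow 2 (L ≃ₐ[ℚ] L)) := inferInstance
  let H : Subgroup (ℂ ≃+* ℂ) :=
    { carrier := {h | ∃ s ∈ (S : Subgroup (L ≃ₐ[ℚ] L)), ∀ x, h (j x) = j (s x)}
      mul_mem' := by
        rintro h h' ⟨s, hs, h1⟩ ⟨s', hs', h2⟩
        refine ⟨s * s', mul_mem hs hs', fun x => ?_⟩
        change h (h' (j x)) = j (s (s' x))
        rw [h2, h1]
      one_mem' := ⟨1, one_mem _, fun x => rfl⟩
      inv_mem' := by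
        rintro h ⟨s, hs, h1⟩
        refine ⟨s⁻¹, inv_mem hs, fun x => ?_⟩
        have h2 := h1 (s⁻¹ x)
        have h3 : s (s⁻¹ x) = x := s.apply_symm_apply x
        rw [h3] at h2
        rw [← h2]
        exact h.symm_apply_apply _ }
  have hH : ∀ h ∈ H, ∃ n : ℕ, ∀ φ : E →+* ℂ, move (h ^ 2 ^ n) φ = φ := by
    rintro h ⟨s, hs, h1⟩
    obtain ⟨n, hn⟩ := S.isPGroup' ⟨s, hs⟩
    have hn' : s ^ 2 ^ n = 1 := congrArg Subtype.val hn
    refine ⟨n, fun τ => ?_⟩
    obtain ⟨φ, rfl⟩ := hjE τ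
    have hpow : ∀ (m : ℕ) x, (h ^ m) (j x) = j ((s ^ m) x) := by
      intro m
      induction m with
      | zero => intro x; rfl
      | succ m ih =>
        intro x
        rw [pow_succ, pow_succ]
        change (h ^ m) (h (j x)) = j ((s ^ m) (s x))
        rw [h1, ih]
    ext x
    change (h ^ 2 ^ n) (j (φ x)) = j (φ x)
    rw [hpow, hn']
    rfl
  let actE : MulAction (ℂ ≃+* ℂ) (E →+* ℂ) := act E ℂ
  obtain ⟨b, ⟨y₀, hy₀⟩, hb1, hb2, hb3⟩ := core_sign (G := ℂ ≃+* ℂ) (X := E →+* ℂ) conj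
    conj_conj_emb exists_half (fun g x => rfl) H (fun h hh => by
      obtain ⟨n, hn⟩ := hH h hh
      exact ⟨n, hn⟩) u c hodd hu hc (fun g => hrel g) ⟨φ₀, hφ₀⟩
  -- one half of the embeddings
  obtain ⟨T, hT⟩ := exists_half (E := E)
  have h01 := zmod_two
  let T' : Finset (E →+* ℂ) := T.filter fun φ => b φ ≠ 0
  have hsum : ∀ f : (E →+* ℂ) → ZMod 2, ∑ φ ∈ T, b φ * f φ = ∑ φ ∈ T', f φ := by
    intro f
    rw [Finset.sum_filter]
    refine Finset.sum_congr rfl fun φ _ => ?_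
    rcases h01 (b φ) with h1 | h1
    · rw [h1, zero_mul, if_neg (by simp)]
    · rw [h1, one_mul, if_pos one_ne_zero]
  have hTcard : Even T'.card := by
    have h1 := (hb3 T hT).1
    have h2 := hsum fun _ => 1
    simp only [mul_one] at h2
    rw [h2, Finset.sum_const, nsmul_eq_mul, mul_one] at h1
    exact (ZMod.natCast_eq_zero_iff_even).1 h1
  -- the number `z φ`
  let z : (E →+* ℂ) → ℂ := fun φ => sg (u φ) * φ ε
  have hzc : ∀ φ, z (conj φ) = z φ := by
    intro φ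
    change sg (u (conj φ)) * φ (IsCMField.complexConj E ε) = sg (u φ) * φ ε
    rw [hu, sg_neg (hodd φ), hε, map_neg]
    ring
  have hzsq : ∀ φ, z φ ^ 2 = φ ε ^ 2 := by
    intro φ
    change (sg (u φ) * φ ε) ^ 2 = _
    rw [mul_pow, pow_two (sg (u φ)), sg_sq, one_mul]
  let B : Finset (E →+* ℂ) := Finset.univ.filter fun φ => b φ ≠ 0
  have hBT : ∀ F : (E →+* ℂ) → ℂ, ∏ φ ∈ B, F φ = ∏ φ ∈ T', (F φ * F (conj φ)) := by
    intro F
    rw [Finset.prod_mul_distrib]
    have h1 : ∏ φ ∈ T', F (conj φ) = ∏ φ ∈ B.filter (fun φ => φ ∉ T), F φ := by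
      refine Finset.prod_nbij' conj conj (fun φ hφ => ?_) (fun φ hφ => ?_)
        (fun φ _ => conj_conj_emb φ) (fun φ _ => conj_conj_emb φ) (fun φ _ => rfl)
      · rw [Finset.mem_filter] at hφ
        refine Finset.mem_filter.2 ⟨Finset.mem_filter.2 ⟨Finset.mem_univ _, ?_⟩, (hT φ).1 hφ.1⟩
        rw [hb1]
        exact hφ.2
      · rw [Finset.mem_filter, Finset.mem_filter] at hφ
        refine Finset.mem_filter.2 ⟨?_, ?_⟩
        · rw [hT, conj_conj_emb]
          exact hφ.2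
        · rw [hb1]
          exact hφ.1.2
    have h2 : T' = B.filter (fun φ => φ ∈ T) := by
      ext φ
      simp only [T', B, Finset.mem_filter, Finset.mem_univ, true_and]
      exact and_comm
    rw [h1, h2]
    exact (Finset.prod_filter_mul_prod_filter_not B (fun φ => φ ∈ T) F).symm
  have hprodT : ∀ T₁ : Finset (E →+* ℂ), (∀ φ, φ ∈ T₁ ↔ conj φ ∉ T₁) →
      ∏ φ ∈ T₁.filter (fun φ => b φ ≠ 0), z φ = ∏ φ ∈ T', z φ := by
    intro T₁ hT₁
    refine Finset.prod_bij' (fun φ _ => if φ ∈ T then φ else conj φ)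
      (fun φ _ => if φ ∈ T₁ then φ else conj φ) (fun φ hφ => ?_) (fun φ hφ => ?_) (fun φ hφ => ?_)
      (fun φ hφ => ?_) (fun φ hφ => ?_)
    · rw [Finset.mem_filter] at hφ ⊢
      split_ifs with h1
      · exact ⟨h1, hφ.2⟩
      · refine ⟨?_, by rw [hb1]; exact hφ.2⟩
        rw [hT, conj_conj_emb]
        exact h1
    · rw [Finset.mem_filter] at hφ ⊢
      split_ifs with h1
      · exact ⟨h1, hφ.2⟩
      · refine ⟨?_, by rw [hb1]; exact hφ.2⟩
        rw [hT₁, conj_conj_emb]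
        exact h1
    · rw [Finset.mem_filter] at hφ
      change (if (if φ ∈ T then φ else conj φ) ∈ T₁ then (if φ ∈ T then φ else conj φ) else
        conj (if φ ∈ T then φ else conj φ)) = φ
      by_cases h1 : φ ∈ T
      · rw [if_pos h1, if_pos hφ.1]
      · rw [if_neg h1, if_neg ((hT₁ φ).1 hφ.1), conj_conj_emb]
    · rw [Finset.mem_filter] at hφ
      change (if (if φ ∈ T₁ then φ else conj φ) ∈ T then (if φ ∈ T₁ then φ else conj φ) else
        conj (if φ ∈ T₁ then φ else conj φ)) = φ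
      by_cases h1 : φ ∈ T₁
      · rw [if_pos h1, if_pos hφ.1]
      · rw [if_neg h1, if_neg ((hT φ).1 hφ.1), conj_conj_emb]
    · change z φ = z (if φ ∈ T then φ else conj φ)
      split_ifs with h1
      · rfl
      · exact (hzc φ).symm
  have hB2 : B.card = 2 * T'.card := by
    have h1 : B.card = (B.filter (fun φ => φ ∈ T)).card + (B.filter (fun φ => φ ∉ T)).card :=
      (Finset.card_filter_add_card_filter_not (fun φ => φ ∈ T)).symm
    have h2 : T' = B.filter (fun φ => φ ∈ T) := by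
      ext φ
      simp only [T', B, Finset.mem_filter, Finset.mem_univ, true_and]
      exact and_comm
    have h3 : (B.filter (fun φ => φ ∉ T)).card = T'.card := by
      refine Finset.card_nbij' conj conj (fun φ hφ => ?_) (fun φ hφ => ?_)
        (fun φ _ => conj_conj_emb φ) (fun φ _ => conj_conj_emb φ)
      · rw [Finset.mem_coe, Finset.mem_filter, Finset.mem_filter] at hφ
        refine Finset.mem_coe.2 (Finset.mem_filter.2 ⟨?_, ?_⟩)
        · rw [hT, conj_conj_emb]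
          exact hφ.2
        · rw [hb1]
          exact hφ.1.2
      · rw [Finset.mem_coe, Finset.mem_filter] at hφ
        refine Finset.mem_coe.2 (Finset.mem_filter.2
          ⟨Finset.mem_filter.2 ⟨Finset.mem_univ _, ?_⟩, (hT φ).1 hφ.1⟩)
        rw [hb1]
        exact hφ.2
    rw [h1, h3, ← h2]
    ring
  -- the contradiction
  have hy2 : (∏ φ ∈ T', z φ) ^ 2 = ∏ φ ∈ B, φ ε := by
    rw [hBT, ← Finset.prod_pow]
    have h1 : ∀ φ ∈ T', z φ ^ 2 = (-1) * (φ ε * (conj φ) ε) := by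
      intro φ _
      rw [hzsq]
      change φ ε ^ 2 = (-1) * (φ ε * φ (IsCMField.complexConj E ε))
      rw [hε, map_neg]
      ring
    rw [Finset.prod_congr rfl h1, Finset.prod_mul_distrib, Finset.prod_const, hTcard.neg_one_pow,
      one_mul]
  have hfour : 4 ∣ B.card := by
    rw [hB2]
    obtain ⟨m, hm⟩ := hTcard
    exact ⟨m, by rw [hm]; ring⟩
  have hmain := hnorm B ⟨y₀, Finset.mem_filter.2 ⟨Finset.mem_univ _, hy₀⟩⟩ (fun φ hφ => by
    refine Finset.mem_filter.2 ⟨Finset.mem_univ _, ?_⟩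
    rw [hb1]
    exact (Finset.mem_filter.1 hφ).2) hfour
    (odd_translates j hjE B S (fun s hs φ hφ => by
      obtain ⟨σ, hσ⟩ := exists_aut j (s : L ≃+* L)
      have h1 := hb2 σ ⟨s, hs, hσ⟩ (j.comp φ)
      have h2 : move σ (j.comp φ) = j.comp (s • φ) := by
        ext x
        exact hσ (φ x)
      refine Finset.mem_filter.2 ⟨Finset.mem_univ _, ?_⟩
      rw [← h2]
      change b (move σ (j.comp φ)) = b (j.comp φ) at h1
      rw [h1]
      exact (Finset.mem_filter.1 hφ).2)) _ hy2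
  -- the number is in `L`
  have hzL : ∀ φ : E →+* ℂ, ∃ y : L, j y = z φ := by
    intro φ
    obtain ⟨ψ, rfl⟩ := hjE φ
    change ∃ y : L, j y = sg (u (j.comp ψ)) * j (ψ ε)
    unfold sg
    split_ifs
    · exact ⟨ψ ε, (one_mul _).symm⟩
    · exact ⟨-ψ ε, by rw [map_neg]; ring⟩
  choose zL hzL using hzL
  have hyL : j (∏ φ ∈ T', zL φ) = ∏ φ ∈ T', z φ := by
    rw [map_prod]
    exact Finset.prod_congr rfl fun φ _ => hzL φ
  rw [← hyL] at hmain
  have hmain' := odd_degree j S (∏ φ ∈ T', zL φ) (fun s hs => by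
    obtain ⟨σ, hσ⟩ := exists_aut j (s : L ≃+* L)
    apply j.injective
    have hσ' : ∀ x, σ (j x) = j (s x) := hσ
    rw [← hσ', hyL]
    -- the image of the product
    let T₁ : Finset (E →+* ℂ) := T.map ⟨move σ, (move_bij σ).1⟩
    have hT₁ : ∀ φ, φ ∈ T₁ ↔ conj φ ∉ T₁ := by
      have h1 : ∀ φ : E →+* ℂ, move σ φ ∈ T₁ ↔ φ ∈ T := by
        intro φ
        constructor
        · intro h2
          obtain ⟨ψ, h3, h4⟩ := Finset.mem_map.1 h2
          rw [← (move_bij σ).1 h4]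
          exact h3
        · exact fun h2 => Finset.mem_map.2 ⟨φ, h2, rfl⟩
      intro φ
      obtain ⟨ψ, rfl⟩ := (move_bij σ).2 φ
      change move σ ψ ∈ T₁ ↔ move σ (conj ψ) ∉ T₁
      rw [h1, h1]
      exact hT ψ
    have hbσ : ∀ φ : E →+* ℂ, b (move σ φ) = b φ := fun φ => hb2 σ ⟨s, hs, hσ'⟩ φ
    have h2 : T₁.filter (fun φ => b φ ≠ 0) = T'.map ⟨move σ, (move_bij σ).1⟩ := by
      ext φ
      constructor
      · intro h3
        obtain ⟨h4, h5⟩ := Finset.mem_filter.1 h3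
        obtain ⟨ψ, h6, rfl⟩ := Finset.mem_map.1 h4
        refine Finset.mem_map.2 ⟨ψ, Finset.mem_filter.2 ⟨h6, ?_⟩, rfl⟩
        rw [← hbσ]
        exact h5
      · intro h3
        obtain ⟨ψ, h6, rfl⟩ := Finset.mem_map.1 h3
        obtain ⟨h4, h5⟩ := Finset.mem_filter.1 h6
        refine Finset.mem_filter.2 ⟨Finset.mem_map.2 ⟨ψ, h4, rfl⟩, ?_⟩
        change b (move σ ψ) ≠ 0
        rw [hbσ]
        exact h5
    have h6 : ∏ φ ∈ T', z (move σ φ) = ∏ φ ∈ T', z φ := by
      have h7 := hprodT T₁ hT₁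
      rw [h2, Finset.prod_map] at h7
      exact h7
    rw [map_prod]
    have h3 : ∀ φ ∈ T', σ (z φ) = z (move σ φ) *
        (if flip u σ φ = 0 then (1 : ℂ) else -1) := by
      intro φ _
      change σ (sg (u φ) * φ ε) = sg (u (move σ φ)) * σ (φ ε) *
        (if ((((u (move σ φ) - u φ) / 2 : ℤ)) : ZMod 2) = 0 then (1 : ℂ) else -1)
      rw [← sg_flip (hodd (move σ φ)) (hodd φ), map_mul]
      have h4 : σ (sg (u φ)) = sg (u φ) := by
        unfold sg
        split_ifs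
        · exact map_one _
        · rw [map_neg, map_one]
      rw [h4]
      calc sg (u φ) * σ (φ ε) = (sg (u (move σ φ)) * sg (u (move σ φ))) * (sg (u φ) * σ (φ ε)) := by
            rw [sg_sq, one_mul]
        _ = _ := by ring
    rw [Finset.prod_congr rfl h3, Finset.prod_mul_distrib, prod_sign]
    have h5 := (hb3 T hT).2 σ
    rw [hsum] at h5
    rw [if_pos h5, mul_one, h6])
  exact (Nat.not_even_iff_odd.2 hmain') hmain

end Run7.h370.TY
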