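import Mathlib
import Pool.Agent.Run7.h370.TY.Norm2
import Pool.Agent.Run7.h370.MR.Angle

/-!
# Nondegenerate functions on the complex embeddings of several CM fields
-/

set_option autoImplicit false
set_option linter.unusedSectionVars false

namespace Run7.h370.TY

open NumberField Module Run7.h370.MR Pool.Agent.H204R3.CM Pool.Agent.H977R3.CM Pool.Agent.W527
  Pool.Agent.Run7.h142.TF Pool.Agent.Run7.h142.JT

/-- A nondegenerate system of functions has no odd relations. -/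
theorem noRel_single {E : Type} [Field E] [NumberField E] [IsCMField E] {I : Type} [Fintype I]
    {u : I → (E →+* ℂ) → ℤ} (h : IsNondegenerate u) (hu : ∀ i φ, u i (conj φ) = - u i φ)
    (c : I → (E →+* ℂ) → ℤ) (hc : ∀ i φ, c i (conj φ) = - c i φ)
    (hrel : ∀ σ : ℂ ≃+* ℂ, ∑ i, ∑ φ, c i φ * u i (move σ φ) = 0) : ∀ i φ, c i φ = 0 := by
  classical
  rcases h with ⟨r, hr, h⟩ | ⟨hI, hodd, hR⟩
  · exact noRel_of_mod hr h hu c hc hrel
  · intro i
    refine noRel_of_products hR (hodd i) (hu i) (c i) (hc i) fun σ => ?_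
    have h1 := hrel σ
    rw [Finset.sum_eq_single i (fun i' _ hi' => absurd (Subsingleton.elim i' i) hi')
      (fun h2 => absurd (Finset.mem_univ _) h2)] at h1
    exact h1

variable {κ : Type} [Fintype κ] {E : κ → Type}
  [∀ k, Field (E k)] [∀ k, NumberField (E k)] [∀ k, IsCMField (E k)] {I : κ → Type}
  [∀ k, Fintype (I k)]

/-- Nondegenerate functions on the embeddings of flipped fields have no odd relations, even after
multiplication by constants for each of the fields. -/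
theorem noRel_fields (hE : FieldsFlipped E) {u : ∀ k, I k → (E k →+* ℂ) → ℤ}
    (h : ∀ k, IsNondegenerate (u k)) (hu : ∀ k i φ, u k i (conj φ) = - u k i φ) (b : κ → ℝ)
    (hb : ∀ k, b k ≠ 0) (C : ∀ k, I k → (E k →+* ℂ) → ℤ)
    (hC : ∀ k i φ, C k i (conj φ) = - C k i φ)
    (hrel : ∀ σ : ℂ ≃+* ℂ, ∑ k, ∑ i, ∑ φ : E k →+* ℂ, (C k i φ : ℝ) *
      (b k * u k i (move σ φ)) = 0) : ∀ k i φ, C k i φ = 0 := by
  classical
  obtain ⟨L, _, _, j, hj⟩ := exists_galois E
  let X := Σ x : (Σ k, I k), (E x.1 →+* L)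
  let U : X → ℝ := fun z => b z.1.1 * u z.1.1 z.1.2 (j.comp z.2)
  have hX : ∀ g : L ≃ₐ[ℚ] L, ∑ y : X, (C y.1.1 y.1.2 (j.comp y.2) : ℝ) * U (g • y) = 0 := by
    intro g
    obtain ⟨σ, hσ⟩ := exists_lift' j g
    rw [← hrel σ, Fintype.sum_sigma, Fintype.sum_sigma]
    refine Finset.sum_congr rfl fun k _ => Finset.sum_congr rfl fun i _ => ?_
    refine Fintype.sum_equiv (embEquiv j (hj k)) _ _ fun φ => ?_
    change _ = (C k i (j.comp φ) : ℝ) * (b k * u k i ((σ : ℂ →+* ℂ).comp (j.comp φ)))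
    rw [lifts_comp j hσ]
    rfl
  have hblock := Pool.Agent.H204R3.GP.core_block_real (X := X) (G := L ≃ₐ[ℚ] L)
    (fun y => ⟨y.1, cbar y.2⟩) (fun g x => rfl) (fun y => y.1.1) U
    (fun z => by
      change b z.1.1 * (u z.1.1 z.1.2 (j.comp (cbar z.2)) : ℝ) =
        - (b z.1.1 * (u z.1.1 z.1.2 (j.comp z.2) : ℝ))
      have h1 : u z.1.1 z.1.2 (j.comp (cbar z.2)) = - u z.1.1 z.1.2 (j.comp z.2) :=
        hu z.1.1 z.1.2 (j.comp z.2)
      rw [h1]
      push_cast
      ring)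
    (by
      rintro ⟨⟨k, i⟩, φ⟩ ⟨⟨l, i'⟩, ψ⟩ hkl
      change l ≠ k at hkl
      obtain ⟨σ, hσ⟩ := hE k l hkl (j.comp φ) (j.comp ψ)
      obtain ⟨g, hg⟩ := exists_lift j σ
      have e1 : move σ (j.comp φ) = j.comp (g • φ) := lifts_comp j hg φ
      have e2 : move σ (j.comp ψ) = j.comp (g • ψ) := lifts_comp j hg ψ
      refine ⟨g, ?_⟩
      rcases hσ with ⟨h1, h2⟩ | ⟨h1, h2⟩
      · left
        rw [e1] at h1
        rw [e2, ← comp_cbar] at h2
        exact ⟨congrArg (Sigma.mk (β := fun x : (Σ k, I k) => (E x.1 →+* L)) ⟨k, i⟩) (jcomp_inj j h1),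
          congrArg (Sigma.mk (β := fun x : (Σ k, I k) => (E x.1 →+* L)) ⟨l, i'⟩) (jcomp_inj j h2)⟩
      · right
        rw [e1, ← comp_cbar] at h1
        rw [e2] at h2
        exact ⟨congrArg (Sigma.mk (β := fun x : (Σ k, I k) => (E x.1 →+* L)) ⟨k, i⟩) (jcomp_inj j h1),
          congrArg (Sigma.mk (β := fun x : (Σ k, I k) => (E x.1 →+* L)) ⟨l, i'⟩) (jcomp_inj j h2)⟩)
    (fun y => (C y.1.1 y.1.2 (j.comp y.2) : ℝ)) hX
  intro k
  refine noRel_single (h k) (hu k) (C k) (hC k) fun σ => ?_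
  obtain ⟨g, hg⟩ := exists_lift j σ
  have h1 := hblock k g
  rw [Finset.sum_filter, Fintype.sum_sigma, Fintype.sum_sigma, Finset.sum_eq_single k] at h1
  · have h2 : (b k) * ((∑ i, ∑ φ, C k i φ * u k i (move σ φ) : ℤ) : ℝ) = 0 := by
      rw [← h1]
      push_cast
      rw [Finset.mul_sum]
      refine Finset.sum_congr rfl fun i _ => ?_
      rw [Finset.mul_sum]
      symm
      refine Fintype.sum_equiv (embEquiv j (hj k)) _ _ fun φ => ?_
      rw [if_pos rfl]
      change (C k i (j.comp φ) : ℝ) * (b k * u k i (j.comp (g • φ))) =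
        b k * ((C k i (j.comp φ) : ℝ) * (u k i ((σ : ℂ →+* ℂ).comp (j.comp φ)) : ℝ))
      rw [lifts_comp j hg]
      ring
    have h3 := (mul_eq_zero.1 h2).resolve_left (hb k)
    exact_mod_cast h3
  · intro l _ hl
    refine Finset.sum_eq_zero fun i _ => Finset.sum_eq_zero fun φ _ => ?_
    rw [if_neg hl]
  · intro h2
    exact absurd (Finset.mem_univ _) h2

end Run7.h370.TY
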