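import Mathlib
import Pool.Agent.Run7.h370.TY.ElemDefs
import Pool.Agent.W495.FM.HomDefs

/-!
# Schemes over finite fields generated by abelian varieties with given slopes: definitions
-/

set_option autoImplicit false

namespace Run7.h370.TY

open Pool.Agent.W495.TA Pool.Agent.W495.FM

/-- The groups of motivic and of `ℓ`-adic homology of `X` are those of an abelian variety `Y` with the
slopes `u`. -/
def IsAbelianOfSlopes {p : ℕ} [Fact p.Prime] (ν : PadicAlgCl p ≃+* ℂ) {κ : Type} {E : κ → Type}
    [∀ k, Field (E k)] {I : κ → Type} (u : ∀ k, I k → (E k →+* ℂ) → ℤ) {Ω V : Type} [Field Ω]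
    [CharZero Ω] (T : Homology Ω V) (X : V) : Prop :=
  ∃ (Y : RedAV p ν) (C : Cycles Ω Y) (D : Motivic C) (g : ℕ), OfSlopes u Y ∧ IsChow C ∧
    IsMotivic D ∧ IsAbelian T X D g

end Run7.h370.TY
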