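import Mathlib
import Pool.Agent.Run7.h370.TY.Elem
import Pool.Agent.Run7.h370.TY.ElemProps
import Pool.Agent.TH117.GN.Main
import Pool.Agent.TH117.GN.Wt

/-!
# Schemes over finite fields generated by abelian varieties with nondegenerate slopes

Adapted from TH170.GS.TB (helper170).
-/

set_option autoImplicit false
set_option linter.unusedSectionVars false

namespace Run7.h370.TY

open Pool.Agent.W495.TA Pool.Agent.W495.FM Pool.Agent.TH117 Pool.Agent.TH117.GN

theorem powers_self {p : ℕ} [Fact p.Prime] {ν : PadicAlgCl p ≃+* ℂ} (Y : RedAV p ν) :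
    BL.IsPowersTimesSupersingular Y Y := fun k =>
  Or.inr ⟨k, RingHom.id _, 1, 1, one_pos, one_pos, rfl, rfl⟩

variable {p : ℕ} [Fact p.Prime] {ν : PadicAlgCl p ≃+* ℂ} {κ : Type} {E : κ → Type}
  [∀ k, Field (E k)] {I : κ → Type} {u : ∀ k, I k → (E k →+* ℂ) → ℤ}

theorem tb_slopes (h : ∀ Y : RedAV p ν, OfSlopes u Y → BL.HasElementaryRelations Y)
    {Ω V : Type} [Field Ω] [IsAlgClosed Ω] [CharZero Ω] {T : Homology Ω V} (hT : IsHomology T)
    {X : V} (hX : Generated T (IsAbelianOfSlopes ν u T) X) : TB T X := by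
  refine tb_generated hT (fun X hX => ?_) hX
  obtain ⟨Y, C, D, g, h1, hC, hD, hX⟩ := hX
  exact tb_abelian hT hC (tateHolds_elem (h Y h1) (powers_self Y) hC) hD hX

theorem onto_slopes (h : ∀ Y : RedAV p ν, OfSlopes u Y → BL.HasElementaryRelations Y)
    {Ω V : Type} [Field Ω] [IsAlgClosed Ω] [CharZero Ω] {T : Homology Ω V} (hT : IsHomology T)
    (hW : HasWeights T) {X : V} (hX : Spread T (Generated T (IsAbelianOfSlopes ν u T)) X)
    (i : ℤ) : IsOnto T X i :=
  onto_spread hT hW (fun _ h1 i => ((tb_slopes h hT h1).iso hT i).1) hX i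

theorem iso_slopes (h : ∀ Y : RedAV p ν, OfSlopes u Y → BL.HasElementaryRelations Y)
    {Ω V : Type} [Field Ω] [IsAlgClosed Ω] [CharZero Ω] {T : Homology Ω V} (hT : IsHomology T)
    (hW : HasWeights T) {X : V} (hX : Generated T (IsAbelianOfSlopes ν u T) X)
    {Z U : V} {d : ℤ} (h1 : IsTriple T Z X U) (hZ : HasDimLE T Z d) {i : ℤ} (hi : d ≤ i) :
    IsIso T U i :=
  iso_opened hT hW h1 (onto_of_dim hT hZ hi) ((tb_slopes h hT hX).iso hT i)

end Run7.h370.TY
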