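import Mathlib
import Pool.Agent.Run7.h370.TY.Norm
import Pool.Agent.Run7.h370.TY.Translates

/-!
# The condition on the norms implies the condition on the products
-/

set_option autoImplicit false
set_option linter.unusedSectionVars false

namespace Run7.h370.TY

open NumberField Module Run7.h370.MR Pool.Agent.H204R3.CM Pool.Agent.H977R3.CM Pool.Agent.H925R2

variable {R E : Type} [Field R] [NumberField R] [Field E] [NumberField E] [IsCMField E]
  [Algebra R E]

theorem nonsquareProducts_of_norms (h : NonsquareNorms R E) : NonsquareProducts E := by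
  classical
  have _ : Fact (Nat.Prime 2) := ⟨Nat.prime_two⟩
  obtain ⟨k, hdeg⟩ := h.degree
  obtain ⟨ε, hε, hnorm⟩ := h.norms
  refine ⟨ε, hε, fun B hB _ hB4 hBt y hy => ?_⟩
  have hno := noOrder_two h.closure
  obtain ⟨L, _, _, j, hj⟩ := exists_galois (fun _ : Unit => E)
  have hjE : ∀ ψ : E →+* ℂ, ∃ φ : E →+* L, j.comp φ = ψ := hj ()
  have hjR : ∀ τ : R →+* ℂ, ∃ y : R →+* L, j.comp y = τ := by
    intro τ
    obtain ⟨ψ, rfl⟩ := exists_ext (E := E) τ
    obtain ⟨φ, rfl⟩ := hjE ψ
    exact ⟨φ.comp (algebraMap R E), rfl⟩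
  obtain ⟨S, hS⟩ := exists_sylow j hjE B hBt
  have htriv : ∀ s : L ≃ₐ[ℚ] L, s ∈ S → ∀ y : R →+* L, s • y = y := fun s hs y =>
    trivial_of_noOrder 2 (noOrder_group j hjR 2 hno) (S : Subgroup (L ≃ₐ[ℚ] L)) S.isPGroup' s hs y
  have hcard : Fintype.card (E →+* L) = Fintype.card (R →+* L) * 2 ^ k := by
    rw [card_emb j hjE, card_emb j hjR, ← hdeg]
    have _ : IsScalarTower ℚ R E := inferInstance
    exact (finrank_mul_finrank ℚ R E).symm
  have hconst : ∀ τ τ' : E →+* ℂ,
      τ.comp (algebraMap R E) = τ'.comp (algebraMap R E) → τ ∈ B → τ' ∈ B := by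
    intro τ τ' hττ hτ
    obtain ⟨φ, rfl⟩ := hjE τ
    obtain ⟨φ', rfl⟩ := hjE τ'
    have h1 : φ.comp (algebraMap R E) = φ'.comp (algebraMap R E) := by
      ext x
      exact congrArg _ (j.injective (RingHom.congr_fun hττ x))
    obtain ⟨s, hs, rfl⟩ := fibre_transitive (G := L ≃ₐ[ℚ] L) (R := E →+* L) (R₀ := R →+* L)
      (fun φ => φ.comp (algebraMap R E)) (fun g x => rfl) 2 k hcard S htriv φ φ' h1
    exact hS s hs φ hτ
  let S₀ : Finset (R →+* ℂ) := B.image fun φ => φ.comp (algebraMap R E)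
  have hS₀ : S₀.Nonempty := hB.image _
  have hfil : ∀ σ ∈ S₀, B.filter (fun φ => φ.comp (algebraMap R E) = σ) =
      Finset.univ.filter (fun φ : E →+* ℂ => φ.comp (algebraMap R E) = σ) := by
    intro σ hσ
    obtain ⟨ψ, h2, h3⟩ := Finset.mem_image.1 hσ
    ext φ
    rw [Finset.mem_filter, Finset.mem_filter]
    constructor
    · exact fun h1 => ⟨Finset.mem_univ _, h1.2⟩
    · exact fun h1 => ⟨hconst ψ φ (h3.trans h1.2.symm) h2, h1.2⟩
  have hBcard : B.card = S₀.card * finrank R E := by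
    rw [Finset.card_eq_sum_card_fiberwise (f := fun φ : E →+* ℂ => φ.comp (algebraMap R E))
      (t := S₀) (fun φ hφ => Finset.mem_image_of_mem _ hφ)]
    have h1 : ∀ σ ∈ S₀, (B.filter (fun φ => φ.comp (algebraMap R E) = σ)).card = finrank R E := by
      intro σ hσ
      rw [hfil σ hσ]
      exact card_fibre σ
    rw [Finset.sum_congr rfl h1, Finset.sum_const, smul_eq_mul]
  have hBprod : ∏ φ ∈ B, φ ε = ∏ σ ∈ S₀, σ (Algebra.norm R ε) := by
    rw [← Finset.prod_fiberwise_of_maps_to (g := fun φ : E →+* ℂ => φ.comp (algebraMap R E))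
      (t := S₀) (fun φ hφ => Finset.mem_image_of_mem _ hφ)]
    refine Finset.prod_congr rfl fun σ hσ => ?_
    rw [hfil σ hσ]
    exact prod_fibre ε σ
  refine hnorm S₀ hS₀ ?_ y (hy.trans hBprod)
  have h1 : 2 ∣ finrank R E := by
    rw [hdeg]
    rcases Nat.eq_zero_or_pos k with hk | hk
    · exfalso
      rw [hk, pow_zero] at hdeg
      obtain ⟨y₀, _⟩ := hB
      have h3 := card_fibre (E := E) (y₀.comp (algebraMap R E))
      rw [hdeg, Finset.card_eq_one] at h3
      obtain ⟨ψ, hψ⟩ := h3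
      have h4 : y₀ = ψ := by
        have h5 : y₀ ∈ Finset.univ.filter (fun φ : E →+* ℂ => φ.comp (algebraMap R E) =
          y₀.comp (algebraMap R E)) := Finset.mem_filter.2 ⟨Finset.mem_univ _, rfl⟩
        rw [hψ] at h5
        exact Finset.mem_singleton.1 h5
      have h6 : conj y₀ = ψ := by
        have h5 : conj y₀ ∈ Finset.univ.filter (fun φ : E →+* ℂ => φ.comp (algebraMap R E) =
          y₀.comp (algebraMap R E)) := by
          refine Finset.mem_filter.2 ⟨Finset.mem_univ _, ?_⟩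
          ext x
          change y₀ (IsCMField.complexConj E (algebraMap R E x)) = y₀ (algebraMap R E x)
          rw [conj_sub h.closure]
        rw [hψ] at h5
        exact Finset.mem_singleton.1 h5
      exact cbar_ne y₀ (h6.trans h4.symm)
    · exact dvd_pow_self 2 hk.ne'
  obtain ⟨m, hm⟩ := h1
  obtain ⟨n, hn⟩ := hB4
  rw [hm, Nat.mul_div_cancel_left m two_pos]
  have h3 : 4 * n = S₀.card * (2 * m) := by rw [← hn, hBcard, hm]
  have h4 : 2 * (2 * n) = 2 * (m * S₀.card) := by
    calc 2 * (2 * n) = 4 * n := by ring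
      _ = S₀.card * (2 * m) := h3
      _ = 2 * (m * S₀.card) := by ring
  exact ⟨n, by omega⟩

end Run7.h370.TY
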