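import Mathlib
import Pool.Agent.Run7.h370.TY.Defs

/-!
# CM fields of 2-power degree with a nonsquare norm
-/

set_option autoImplicit false
set_option linter.unusedSectionVars false

namespace Run7.h370.TY

open NumberField Module Run7.h370.MR

theorem finrank_normalClosure_rat (inst : Algebra ℚ ℚ) :
    finrank ℚ (@IntermediateField.normalClosure ℚ ℚ ℂ _ _ _ inst _) = 1 := by
  have h0 : inst = Algebra.id ℚ := Subsingleton.elim _ _
  subst h0
  have h1 : IntermediateField.normalClosure ℚ ℚ ℂ = ⊥ := by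
    rw [eq_bot_iff, normalClosure_le_iff]
    rintro f x ⟨y, rfl⟩
    rw [IntermediateField.mem_bot]
    exact ⟨y, (f.commutes y).symm⟩
  rw [h1]
  exact IntermediateField.finrank_bot

theorem even_degree_sqrt {q : ℚ} (hq : ¬ IsSquare q) {y : ℂ} (hy : y ^ 2 = (q : ℂ)) :
    Even (minpoly ℚ y).natDegree := by
  have h1 : Polynomial.aeval y (Polynomial.X ^ 2 - Polynomial.C q : Polynomial ℚ) = 0 := by
    rw [map_sub, map_pow, Polynomial.aeval_X, Polynomial.aeval_C, hy, sub_eq_zero]
    rfl
  have hm : (Polynomial.X ^ 2 - Polynomial.C q : Polynomial ℚ).Monic :=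
    Polynomial.monic_X_pow_sub_C q two_ne_zero
  have hint : IsIntegral ℚ y := ⟨_, hm, by rwa [← Polynomial.aeval_def]⟩
  have h2 : (minpoly ℚ y).natDegree ≤ 2 := by
    have h3 := Polynomial.natDegree_le_of_dvd (minpoly.dvd ℚ y h1) hm.ne_zero
    rwa [Polynomial.natDegree_X_pow_sub_C] at h3
  have h3 : 0 < (minpoly ℚ y).natDegree := minpoly.natDegree_pos hint
  have h4 : (minpoly ℚ y).natDegree ≠ 1 := by
    intro h5
    rw [minpoly.natDegree_eq_one_iff] at h5
    obtain ⟨z, hz⟩ := h5
    apply hq
    refine ⟨z, ?_⟩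
    have h6 : ((z * z : ℚ) : ℂ) = (q : ℂ) := by
      rw [← hy, ← hz]
      push_cast
      rw [pow_two]
      rfl
    exact_mod_cast h6.symm
  have h5 : (minpoly ℚ y).natDegree = 2 := by omega
  rw [h5]
  exact even_two

/-- A CM field of 2-power degree with a number `ε` with `conj ε = - ε` whose norm is not the square
of a rational number has nonsquare norms over the rational numbers. -/
theorem nonsquareNorms_rat {E : Type} [Field E] [NumberField E] [IsCMField E]
    (hdeg : ∃ m : ℕ, finrank ℚ E = 2 ^ m) (ε : E) (hε : IsCMField.complexConj E ε = - ε)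
    (hn : ¬ IsSquare (Algebra.norm ℚ ε)) : NonsquareNorms ℚ E := by
  classical
  refine ⟨?_, hdeg, ε, hε, fun S hS _ y hy => ?_⟩
  · rw [finrank_normalClosure_rat]
    exact odd_one
  · obtain ⟨σ, hσ⟩ := hS
    have h1 : S = {σ} := by
      ext τ
      rw [Finset.mem_singleton]
      exact ⟨fun _ => Subsingleton.elim _ _, fun h => h ▸ hσ⟩
    rw [h1, Finset.prod_singleton] at hy
    refine even_degree_sqrt hn (y := y) ?_
    rw [hy]
    exact map_ratCast σ _

end Run7.h370.TY
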